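import Pool.Agent.Helper34.EX.Riem3
import Pool.Agent.Helper79.EX.Riem3

/-!
# EX, block R: `cx_lim`
-/

open MeasureTheory Real Set Filter Topology

set_option autoImplicit false

namespace Pool.Agent.Helper93.EX

open Pool.Agent.Helper22.AE (rho nk tk box)

theorem cx_lim {H : ℝ → ℝ} (h2 : ContDiff ℝ 2 H) (hp : Function.Periodic H (2 * π)) (hr : ∀ t, 0 < rho H t) {σ : ℝ}
    (hσ : σ = 1 ∨ σ = -1) {ell : ℝ} (hl : 0 < ell) {ε : ℝ} (hε : 0 < ε) :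
    ∃ a₀ : ℕ, ∀ a : ℕ, a₀ ≤ a → ∃ p₀ : ℕ, ∀ p : ℕ, p₀ ≤ p →
      |CX σ H (NN a p) (ell * Lx p ^ (3 / 4 : ℝ)) / Lx p - 6 / π ^ 2 * aff H * Jc σ * ell ^ (4 / 3 : ℝ)| ≤ ε := by
  refine cx_lim_of34 (fun φ r C ell hc h1 h2 hrc hrp hr0 hl0 => ?_) h2 hp hr hσ hl hε
  have hC : 0 ≤ C := by
    have := h1 1
    rw [abs_one, mul_one] at this
    exact (abs_nonneg _).trans this
  exact ⟨fun Y hY => Pool.Agent.Helper79.EX.riem_summ h1 h2 hC hrc hl0.le hY,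
    Pool.Agent.Helper79.EX.riem hc h1 h2 hC hrc hrp hr0 hl0⟩

end Pool.Agent.Helper93.EX
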