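import Pool.Agent.Helper93.EX.Defs4

/-!
# EX4, block F4 (d): from dyadic intervals to all intervals `[X, 2X]`
-/

open MeasureTheory Real Set Filter Topology

set_option autoImplicit false

namespace Pool.Agent.Helper93.EX

open Pool.Agent.Helper93.AO

private theorem pw34 (β : ℝ) {u : ℝ} (h1 : 1 / 2 ≤ u) (h2 : u ≤ 2) : u ^ β ≤ 2 ^ |β| ∧ 2 ^ (-|β|) ≤ u ^ β := by
  have hu : 0 < u := by linarith
  have hl : 0 < Real.log 2 := Real.log_pos one_lt_two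
  have h3 : |Real.log u| ≤ Real.log 2 := by
    rw [abs_le]
    constructor
    · have := Real.log_le_log (by norm_num) h1
      rw [one_div, Real.log_inv] at this
      exact this
    · exact Real.log_le_log hu h2
  have h4 : |β * Real.log u| ≤ |β| * Real.log 2 := by
    rw [abs_mul]
    exact mul_le_mul_of_nonneg_left h3 (abs_nonneg _)
  rw [abs_le] at h4
  rw [rpow_def_of_pos hu, rpow_def_of_pos two_pos, rpow_def_of_pos two_pos]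
  constructor
  · exact exp_le_exp.2 (by linarith)
  · exact exp_le_exp.2 (by linarith)

private theorem two_pw34 (β : ℝ) (p : ℕ) : (2 : ℝ) ^ (β * p) = ((2 : ℝ) ^ p) ^ β := by
  rw [mul_comm, rpow_mul (by norm_num), rpow_natCast]

private theorem pw_X34 (β : ℝ) (q : ℕ) {X : ℝ} (hX : 0 < X) (h1 : X ≤ 2 * 2 ^ q) (h2 : (2 : ℝ) ^ q ≤ 2 * X) :
    (2 : ℝ) ^ (β * q) ≤ 2 ^ |β| * X ^ β ∧ 2 ^ (-|β|) * X ^ β ≤ (2 : ℝ) ^ (β * q) := by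
  have hu1 : 1 / 2 ≤ (2 : ℝ) ^ q / X := by
    rw [le_div_iff₀ hX]
    linarith
  have hu2 : (2 : ℝ) ^ q / X ≤ 2 := by
    rw [div_le_iff₀ hX]
    exact h2
  have h3 : (2 : ℝ) ^ (β * q) = ((2 : ℝ) ^ q / X) ^ β * X ^ β := by
    rw [two_pw34, ← mul_rpow (by positivity) hX.le, div_mul_cancel₀ _ hX.ne']
  obtain ⟨h4, h5⟩ := pw34 β hu1 hu2
  have h6 : 0 ≤ X ^ β := rpow_nonneg hX.le _
  rw [h3]
  exact ⟨mul_le_mul_of_nonneg_right h4 h6, mul_le_mul_of_nonneg_right h5 h6⟩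

private theorem fin34 {A B : ℝ} {P : ℝ → Prop} : volume {R : ℝ | R ∈ Icc A B ∧ P R} ≠ ⊤ :=
  ne_top_of_le_ne_top (measure_Icc_lt_top (a := A) (b := B)).ne (measure_mono fun _ hR => hR.1)

private theorem LV_mono34 {F : ℝ → ℝ} {t A B A' B' : ℝ} (hA : A' ≤ A) (hB : B ≤ B') : LV F t A B ≤ LVc F t A' B' :=
  measureReal_mono (fun R hR => ⟨⟨hA.trans hR.1.1, hR.1.2.trans hB⟩, le_of_lt hR.2⟩) fin34

private theorem LVc_split34 {F : ℝ → ℝ} {t A B D A' D' : ℝ} (hA : A ≤ A') (hD : D' ≤ D) :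
    LVc F t A' D' ≤ LVc F t A B + LVc F t B D := by
  unfold LVc
  refine (measureReal_mono ?_ ?_).trans (measureReal_union_le _ _)
  · intro R hR
    rcases le_total R B with h | h
    · exact Or.inl ⟨⟨hA.trans hR.1.1, h⟩, hR.2⟩
    · exact Or.inr ⟨⟨h, hR.1.2.trans hD⟩, hR.2⟩
  · exact (measure_union_lt_top fin34.lt_top fin34.lt_top).ne

theorem dy4 {F : ℝ → ℝ × ℝ → ℝ} {T : ℝ} (hT : 0 < T)
    (hu : ∀ t : ℝ, 0 < t → ∀ ε : ℝ, 0 < ε → ∃ p₀ : ℕ, ∀ p : ℕ, p₀ ≤ p → ∀ c : ℝ × ℝ, LVc (fun R => F R c) t (2 ^ p) (2 ^ (p + 1)) ≤ 2 ^ ((1 - (t / T) ^ 4 + ε) * p : ℝ))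
    (hl : ∀ t : ℝ, 0 < t → t < T → ∀ ε : ℝ, 0 < ε → ∃ p₀ : ℕ, ∀ p : ℕ, p₀ ≤ p → ∀ j : ℕ, j < 2 → ∀ c : ℝ × ℝ, 2 ^ ((1 - (t / T) ^ 4 - ε) * p : ℝ) ≤ LV (fun R => F R c) t (2 ^ p * (1 + j / 2)) (2 ^ p * (1 + (j + 1) / 2))) :
    ∀ t : ℝ, 0 < t → ∀ ε : ℝ, 0 < ε → ∃ X₀ : ℝ, ∀ X : ℝ, X₀ ≤ X → ∀ c : ℝ × ℝ, (t < T → X ^ (1 - (t / T) ^ 4 - ε) ≤ LVc (fun R => F R c) t X (2 * X)) ∧ LVc (fun R => F R c) t X (2 * X) ≤ X ^ (1 - (t / T) ^ 4 + ε) := by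
  intro t ht ε hε
  have hε2 : 0 < ε / 2 := by positivity
  obtain ⟨β, hβ⟩ : ∃ β, β = 1 - (t / T) ^ 4 + ε / 2 := ⟨_, rfl⟩
  obtain ⟨γ, hγ⟩ : ∃ γ, γ = 1 - (t / T) ^ 4 - ε / 2 := ⟨_, rfl⟩
  obtain ⟨p₁, hp₁⟩ := hu t ht (ε / 2) hε2
  obtain ⟨p₂, hp₂⟩ : ∃ p₂ : ℕ, t < T → ∀ p : ℕ, p₂ ≤ p → ∀ j : ℕ, j < 2 → ∀ c : ℝ × ℝ,
      2 ^ ((1 - (t / T) ^ 4 - ε / 2) * p : ℝ) ≤ LV (fun R => F R c) t (2 ^ p * (1 + j / 2)) (2 ^ p * (1 + (j + 1) / 2)) := by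
    by_cases htT : t < T
    · obtain ⟨p₂, h⟩ := hl t ht htT (ε / 2) hε2
      exact ⟨p₂, fun _ => h⟩
    · exact ⟨0, fun h => absurd h htT⟩
  obtain ⟨X₁, hX₁⟩ := eventually_atTop.1 ((tendsto_rpow_atTop hε2).eventually_ge_atTop ((2 : ℝ) ^ (1 + |β|)))
  obtain ⟨X₂, hX₂⟩ := eventually_atTop.1 ((tendsto_rpow_atTop hε2).eventually_ge_atTop ((2 : ℝ) ^ |γ|))
  refine ⟨max (max X₁ X₂) ((2 : ℝ) ^ (max p₁ p₂)), fun X hX c => ?_⟩
  have hXX₁ : X₁ ≤ X := (le_max_left _ _).trans ((le_max_left _ _).trans hX)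
  have hXX₂ : X₂ ≤ X := (le_max_right _ _).trans ((le_max_left _ _).trans hX)
  have hXp : (2 : ℝ) ^ (max p₁ p₂) ≤ X := (le_max_right _ _).trans hX
  have hX1 : 1 ≤ X := (one_le_pow₀ (by norm_num)).trans hXp
  have hX0 : 0 < X := by linarith
  obtain ⟨p, hpX, hXp1⟩ : ∃ p : ℕ, (2 : ℝ) ^ p ≤ X ∧ X < 2 ^ (p + 1) :=
    exists_nat_pow_near hX1 one_lt_two
  have hpp : max p₁ p₂ ≤ p := by
    have h1 : (2 : ℝ) ^ (max p₁ p₂) < 2 ^ (p + 1) := lt_of_le_of_lt hXp hXp1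
    have h2 := (pow_lt_pow_iff_right₀ (one_lt_two (α := ℝ))).1 h1
    omega
  have hpow : (2 : ℝ) ^ (p + 1) = 2 * 2 ^ p := pow_succ' _ _
  have hpow2 : (2 : ℝ) ^ (p + 1 + 1) = 2 * 2 ^ (p + 1) := pow_succ' _ _
  have hp0 : (0 : ℝ) < 2 ^ p := by positivity
  obtain ⟨a1, a2⟩ := pw_X34 β p hX0 (by linarith) (by linarith)
  obtain ⟨a3, a4⟩ := pw_X34 β (p + 1) hX0 (by linarith) (by linarith)
  obtain ⟨b1, b2⟩ := pw_X34 γ p hX0 (by linarith) (by linarith)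
  obtain ⟨b3, b4⟩ := pw_X34 γ (p + 1) hX0 (by linarith) (by linarith)
  constructor
  · intro htT
    have h1 : X ^ (1 - (t / T) ^ 4 - ε) ≤ 2 ^ (-|γ|) * X ^ γ := by
      have h2 : X ^ γ = X ^ (1 - (t / T) ^ 4 - ε) * X ^ (ε / 2) := by
        rw [← rpow_add hX0, hγ]
        congr 1
        ring
      have h3 := hX₂ X hXX₂
      have h4 : (1 : ℝ) ≤ 2 ^ (-|γ|) * X ^ (ε / 2) := by
        rw [rpow_neg (by norm_num), ← div_eq_inv_mul, le_div_iff₀ (by positivity), one_mul]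
        exact h3
      have h5 : 0 < X ^ (1 - (t / T) ^ 4 - ε) := rpow_pos_of_pos hX0 _
      rw [h2]
      calc X ^ (1 - (t / T) ^ 4 - ε) = X ^ (1 - (t / T) ^ 4 - ε) * 1 := (mul_one _).symm
        _ ≤ X ^ (1 - (t / T) ^ 4 - ε) * (2 ^ (-|γ|) * X ^ (ε / 2)) := mul_le_mul_of_nonneg_left h4 h5.le
        _ = 2 ^ (-|γ|) * (X ^ (1 - (t / T) ^ 4 - ε) * X ^ (ε / 2)) := by ring
    rcases le_total X (2 ^ p * (3 / 2)) with hc | hc
    · have h2 := hp₂ htT p ((le_max_right _ _).trans hpp) 1 (by norm_num) c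
      rw [← hγ] at h2
      refine (h1.trans b2).trans (h2.trans (LV_mono34 ?_ ?_))
      · push_cast
        linarith
      · push_cast
        linarith
    · have h2 := hp₂ htT (p + 1) (((le_max_right _ _).trans hpp).trans (Nat.le_succ p)) 0 (by norm_num) c
      rw [← hγ] at h2
      refine (h1.trans b4).trans (h2.trans (LV_mono34 ?_ ?_))
      · push_cast
        linarith
      · push_cast
        linarith
  · have h1 := hp₁ p ((le_max_left _ _).trans hpp) c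
    have h2 := hp₁ (p + 1) (((le_max_left _ _).trans hpp).trans (Nat.le_succ p)) c
    rw [← hβ] at h1 h2
    have h3 : LVc (fun R => F R c) t X (2 * X) ≤
        LVc (fun R => F R c) t (2 ^ p) (2 ^ (p + 1)) + LVc (fun R => F R c) t (2 ^ (p + 1)) (2 ^ (p + 1 + 1)) :=
      LVc_split34 hpX (by linarith)
    have h4 : X ^ (1 - (t / T) ^ 4 + ε) = X ^ β * X ^ (ε / 2) := by
      rw [← rpow_add hX0, hβ]
      congr 1
      ring
    have h5 := hX₁ X hXX₁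
    have h6 : (2 : ℝ) ^ (1 + |β|) = 2 * 2 ^ |β| := by
      rw [rpow_add two_pos, rpow_one]
    have h7 : 0 < X ^ β := rpow_pos_of_pos hX0 _
    rw [h4]
    calc LVc (fun R => F R c) t X (2 * X) ≤ 2 ^ |β| * X ^ β + 2 ^ |β| * X ^ β :=
          h3.trans (add_le_add (h1.trans a1) (h2.trans a3))
      _ = X ^ β * (2 * 2 ^ |β|) := by ring
      _ ≤ X ^ β * X ^ (ε / 2) := by
        rw [← h6]
        exact mul_le_mul_of_nonneg_left h5 h7.le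

end Pool.Agent.Helper93.EX
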