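import Pool.Agent.Helper34.EX.Riem1

/-!
# EX, block R, part 2: the constants `Jc` are positive; an auxiliary integral
-/

open MeasureTheory Real Set Filter Topology

set_option autoImplicit false

namespace Pool.Agent.Helper93.EX

/-- integrability of the radial function -/
theorem rad_int34 {φ : ℝ → ℝ} (hc : Continuous φ) {C : ℝ} (h1 : ∀ s, |φ s| ≤ C * |s|) (h2 : ∀ s, |φ s| ≤ C * s ^ 2) :
    IntegrableOn (fun u : ℝ => φ (u ^ (-(3 / 2) : ℝ)) * u) (Ioi 0) := by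
  have hC : 0 ≤ C := by
    have := h1 1
    rw [abs_one, mul_one] at this
    exact (abs_nonneg _).trans this
  have hcont : ContinuousOn (fun u : ℝ => φ (u ^ (-(3 / 2) : ℝ)) * u) (Ioi 0) := by
    refine ContinuousOn.mul (hc.comp_continuousOn ?_) continuousOn_id
    exact ContinuousOn.rpow_const continuousOn_id fun x hx => Or.inl (ne_of_gt hx)
  have hm : ∀ s : Set ℝ, MeasurableSet s → s ⊆ Ioi 0 → AEStronglyMeasurable (fun u : ℝ => φ (u ^ (-(3 / 2) : ℝ)) * u)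
      (volume.restrict s) := fun s hs hsub => (hcont.mono hsub).aestronglyMeasurable hs
  rw [← Ioc_union_Ioi_eq_Ioi (zero_le_one' ℝ)]
  refine IntegrableOn.union ?_ ?_
  · have hi : IntegrableOn (fun u : ℝ => C * u ^ (-(1 / 2) : ℝ)) (Ioc 0 1) := by
      have := (intervalIntegral.intervalIntegrable_rpow' (a := (0 : ℝ)) (b := 1) (r := -(1 / 2)) (by norm_num)).const_mul C
      rwa [intervalIntegrable_iff_integrableOn_Ioc_of_le zero_le_one] at this
    refine Integrable.mono' hi (hm _ measurableSet_Ioc fun x hx => hx.1) ?_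
    refine (ae_restrict_iff' measurableSet_Ioc).2 (ae_of_all _ fun u hu => ?_)
    have hu0 : 0 < u := hu.1
    rw [norm_mul, norm_eq_abs, norm_eq_abs, abs_of_pos hu0]
    calc |φ (u ^ (-(3 / 2) : ℝ))| * u ≤ C * |u ^ (-(3 / 2) : ℝ)| * u := mul_le_mul_of_nonneg_right (h1 _) hu0.le
      _ = C * u ^ (-(1 / 2) : ℝ) := by
        rw [abs_of_nonneg (rpow_nonneg hu0.le _), mul_assoc]
        congr 1
        nth_rewrite 2 [← rpow_one u]
        rw [← rpow_add hu0]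
        norm_num
  · have hi : IntegrableOn (fun u : ℝ => C * u ^ (-2 : ℝ)) (Ioi 1) :=
      (integrableOn_Ioi_rpow_of_lt (by norm_num) one_pos).const_mul C
    refine Integrable.mono' hi (hm _ measurableSet_Ioi fun x hx => mem_Ioi.2 (lt_trans one_pos (mem_Ioi.1 hx))) ?_
    refine (ae_restrict_iff' measurableSet_Ioi).2 (ae_of_all _ fun u hu => ?_)
    have hu0 : 0 < u := lt_trans one_pos hu
    rw [norm_mul, norm_eq_abs, norm_eq_abs, abs_of_pos hu0]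
    calc |φ (u ^ (-(3 / 2) : ℝ))| * u ≤ C * (u ^ (-(3 / 2) : ℝ)) ^ 2 * u := mul_le_mul_of_nonneg_right (h2 _) hu0.le
      _ = C * u ^ (-2 : ℝ) := by
        rw [mul_assoc, ← rpow_natCast, ← rpow_mul hu0.le]
        congr 1
        nth_rewrite 2 [← rpow_one u]
        rw [← rpow_add hu0]
        norm_num

/-- the function `s ↦ La fI (σ * s)` -/
theorem Lphi_cont34 (σ : ℝ) : Continuous fun s : ℝ => La fI (σ * s) :=
  (La_cont34 fI_cont34 fI_abs34).comp (continuous_const.mul continuous_id)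

theorem Lphi_one34 {σ : ℝ} (hσ : σ = 1 ∨ σ = -1) (s : ℝ) : |La fI (σ * s)| ≤ 1 * |s| := by
  have h1 := La_abs34 fI_cont34 fI_abs34 (σ * s)
  rw [abs_mul] at h1
  rcases hσ with rfl | rfl
  · simpa using h1
  · simpa using h1

theorem Lphi_two34 {σ : ℝ} (hσ : σ = 1 ∨ σ = -1) (s : ℝ) : |La fI (σ * s)| ≤ 1 * s ^ 2 := by
  have h1 := La_sq34 fI_cont34 fI_abs34 fI_int34 (σ * s)
  rw [abs_of_nonneg (La_nonneg34 fI_cont34 fI_int34 _)]
  rcases hσ with rfl | rfl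
  · simpa using h1
  · simpa using h1

theorem Jc_pos {σ : ℝ} (hσ : σ = 1 ∨ σ = -1) : 0 < Jc σ := by
  have hint := rad_int34 (Lphi_cont34 σ) (Lphi_one34 hσ) (Lphi_two34 hσ)
  have hpos : ∀ u ∈ Ioi (0 : ℝ), 0 < La fI (σ * u ^ (-(3 / 2) : ℝ)) * u := by
    intro u hu
    refine mul_pos (La_pos34 fI_cont34 fI_int34 fI_ne34 ?_) hu
    refine mul_ne_zero ?_ (rpow_pos_of_pos hu _).ne'
    rcases hσ with rfl | rfl <;> norm_num
  unfold Jc
  rw [setIntegral_pos_iff_support_of_nonneg_ae ?_ hint]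
  · have h1 : Ioi (0 : ℝ) ⊆ Function.support (fun u : ℝ => La fI (σ * u ^ (-(3 / 2) : ℝ)) * u) ∩ Ioi 0 := fun u hu =>
      ⟨(hpos u hu).ne', hu⟩
    exact lt_of_lt_of_le (by simp) (measure_mono h1)
  · exact (ae_restrict_iff' measurableSet_Ioi).2 (ae_of_all _ fun u hu => (hpos u hu).le)

/-- the error function -/
noncomputable def phd34 (δ s : ℝ) : ℝ := min (δ * |s| ^ (2 / 3 : ℝ)) (s ^ 2)

theorem phd_cont34 (δ : ℝ) : Continuous (phd34 δ) := by
  unfold phd34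
  refine Continuous.min ?_ (by fun_prop)
  exact continuous_const.mul (continuous_abs.rpow_const fun x => Or.inr (by norm_num))

theorem phd_nonneg34 {δ : ℝ} (hδ : 0 < δ) (s : ℝ) : 0 ≤ phd34 δ s :=
  le_min (by positivity) (sq_nonneg s)

theorem phd_two34 {δ : ℝ} (hδ : 0 < δ) (s : ℝ) : |phd34 δ s| ≤ (1 + δ) * s ^ 2 := by
  rw [abs_of_nonneg (phd_nonneg34 hδ s)]
  refine (min_le_right _ _).trans ?_
  nlinarith [sq_nonneg s]

theorem phd_one34 {δ : ℝ} (hδ : 0 < δ) (s : ℝ) : |phd34 δ s| ≤ (1 + δ) * |s| := by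
  rw [abs_of_nonneg (phd_nonneg34 hδ s)]
  rcases le_total |s| 1 with hs | hs
  · refine (min_le_right _ _).trans ?_
    rw [← sq_abs]
    nlinarith [abs_nonneg s]
  · refine (min_le_left _ _).trans ?_
    have h1 : |s| ^ (2 / 3 : ℝ) ≤ |s| := by
      calc |s| ^ (2 / 3 : ℝ) ≤ |s| ^ (1 : ℝ) := rpow_le_rpow_of_exponent_le hs (by norm_num)
        _ = |s| := rpow_one _
    nlinarith [abs_nonneg s]

/-- value at the radial powers -/
theorem phd_val34 {δ Q u : ℝ} (hQ : 0 < Q) (hu : 0 < u) :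
    phd34 δ (Q * u ^ (-(3 / 2) : ℝ)) = min (δ * Q ^ (2 / 3 : ℝ) * u⁻¹) (Q ^ 2 * (u ^ 3)⁻¹) := by
  unfold phd34
  have h0 : 0 < Q * u ^ (-(3 / 2) : ℝ) := mul_pos hQ (rpow_pos_of_pos hu _)
  rw [abs_of_pos h0, mul_rpow hQ.le (rpow_nonneg hu.le _), ← rpow_mul hu.le]
  congr 1
  · rw [show (-(3 / 2) : ℝ) * (2 / 3) = -1 by norm_num, rpow_neg_one]
    ring
  · rw [mul_pow, ← rpow_natCast (u ^ (-(3 / 2) : ℝ)), ← rpow_mul hu.le]
    congr 1
    rw [show (-(3 / 2) : ℝ) * ((2 : ℕ) : ℝ) = -((3 : ℕ) : ℝ) by norm_num, rpow_neg hu.le, rpow_natCast]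

/-- the radial integral of the error function is small -/
theorem phd_rad34 {δ : ℝ} (hδ : 0 < δ) : ∫ u in Ioi (0 : ℝ), phd34 δ (u ^ (-(3 / 2) : ℝ)) * u ≤ 2 * sqrt δ := by
  have hint := rad_int34 (phd_cont34 δ) (phd_one34 hδ) (phd_two34 hδ)
  obtain ⟨b, hb⟩ : ∃ b, b = (sqrt δ)⁻¹ := ⟨_, rfl⟩
  have hs : 0 < sqrt δ := Real.sqrt_pos.2 hδ
  have hb0 : 0 < b := hb ▸ inv_pos.2 hs
  have hval : ∀ u : ℝ, 0 < u → phd34 δ (u ^ (-(3 / 2) : ℝ)) * u ≤ δ ∧ phd34 δ (u ^ (-(3 / 2) : ℝ)) * u ≤ u ^ (-2 : ℝ) := by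
    intro u hu
    have h1 := phd_val34 (δ := δ) one_pos hu
    rw [one_mul, one_rpow, mul_one, one_pow, one_mul] at h1
    rw [h1]
    constructor
    · calc min (δ * u⁻¹) (u ^ 3)⁻¹ * u ≤ δ * u⁻¹ * u := mul_le_mul_of_nonneg_right (min_le_left _ _) hu.le
        _ = δ := by field_simp
    · calc min (δ * u⁻¹) (u ^ 3)⁻¹ * u ≤ (u ^ 3)⁻¹ * u := mul_le_mul_of_nonneg_right (min_le_right _ _) hu.le
        _ = u ^ (-2 : ℝ) := by
          rw [show (-2 : ℝ) = -((2 : ℕ) : ℝ) by norm_num, rpow_neg hu.le, rpow_natCast]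
          field_simp
  have hsplit : ∫ u in Ioi (0 : ℝ), phd34 δ (u ^ (-(3 / 2) : ℝ)) * u =
      (∫ u in Ioc 0 b, phd34 δ (u ^ (-(3 / 2) : ℝ)) * u) + ∫ u in Ioi b, phd34 δ (u ^ (-(3 / 2) : ℝ)) * u := by
    rw [← Ioc_union_Ioi_eq_Ioi hb0.le] at hint ⊢
    exact setIntegral_union (Ioc_disjoint_Ioi_same) measurableSet_Ioi (hint.mono_set subset_union_left)
      (hint.mono_set subset_union_right)
  have h1 : ∫ u in Ioc 0 b, phd34 δ (u ^ (-(3 / 2) : ℝ)) * u ≤ δ * b := by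
    have : ∫ u in Ioc 0 b, phd34 δ (u ^ (-(3 / 2) : ℝ)) * u ≤ ∫ u in Ioc 0 b, δ :=
      setIntegral_mono_on (hint.mono_set fun x hx => hx.1) (by simp) measurableSet_Ioc
        fun u hu => (hval u hu.1).1
    refine this.trans (le_of_eq ?_)
    simp [hb0.le, mul_comm]
  have h2 : ∫ u in Ioi b, phd34 δ (u ^ (-(3 / 2) : ℝ)) * u ≤ b⁻¹ := by
    have : ∫ u in Ioi b, phd34 δ (u ^ (-(3 / 2) : ℝ)) * u ≤ ∫ u in Ioi b, u ^ (-2 : ℝ) :=
      setIntegral_mono_on (hint.mono_set fun x hx => lt_trans hb0 hx) (integrableOn_Ioi_rpow_of_lt (by norm_num) hb0)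
        measurableSet_Ioi fun u hu => (hval u (lt_trans hb0 hu)).2
    refine this.trans (le_of_eq ?_)
    rw [integral_Ioi_rpow_of_lt (by norm_num) hb0]
    rw [show (-2 : ℝ) + 1 = -1 by norm_num, rpow_neg_one]
    simp
  rw [hsplit]
  have h3 : δ * b = sqrt δ := by
    rw [hb]
    nth_rewrite 1 [← Real.mul_self_sqrt hδ.le]
    field_simp
  have h4 : b⁻¹ = sqrt δ := by rw [hb, inv_inv]
  rw [h3] at h1
  rw [h4] at h2
  linarith

end Pool.Agent.Helper93.EX
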