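import Pool.Agent.Helper93.EX.Defs

/-!
# EX, block R, part 1: the function `La` and the waves `fJ`, `fI`
-/

open MeasureTheory Real Set Filter Topology

set_option autoImplicit false

namespace Pool.Agent.Helper93.EX

/-! ### `La` -/

private theorem int_exp_pos34 {u : ℝ → ℝ} (hu : Continuous u) : 0 < ∫ x in (0 : ℝ)..1, exp (u x) :=
  intervalIntegral.intervalIntegral_pos_of_pos_on (Continuous.intervalIntegrable (by fun_prop) _ _) (fun x _ => exp_pos _)
    one_pos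

private theorem log_int_le34 {u v : ℝ → ℝ} (hu : Continuous u) (hv : Continuous v) {δ : ℝ} (h : ∀ x, u x ≤ v x + δ) :
    log (∫ x in (0 : ℝ)..1, exp (u x)) ≤ log (∫ x in (0 : ℝ)..1, exp (v x)) + δ := by
  have h1 : ∫ x in (0 : ℝ)..1, exp (u x) ≤ (∫ x in (0 : ℝ)..1, exp (v x)) * exp δ := by
    rw [← intervalIntegral.integral_mul_const]
    refine intervalIntegral.integral_mono_on zero_le_one (Continuous.intervalIntegrable (by fun_prop) _ _)
      (Continuous.intervalIntegrable (by fun_prop) _ _) fun x _ => ?_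
    rw [← exp_add]
    exact exp_le_exp.2 (h x)
  have h2 := log_le_log (int_exp_pos34 hu) h1
  rwa [log_mul (int_exp_pos34 hv).ne' (exp_pos δ).ne', log_exp] at h2

theorem log_int_sub34 {u v : ℝ → ℝ} (hu : Continuous u) (hv : Continuous v) {δ : ℝ} (h : ∀ x, |u x - v x| ≤ δ) :
    |log (∫ x in (0 : ℝ)..1, exp (u x)) - log (∫ x in (0 : ℝ)..1, exp (v x))| ≤ δ := by
  rw [abs_sub_le_iff]
  constructor
  · have := log_int_le34 hu hv (δ := δ) fun x => by have := (abs_sub_le_iff.1 (h x)).1; linarith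
    linarith
  · have := log_int_le34 hv hu (δ := δ) fun x => by have := (abs_sub_le_iff.1 (h x)).2; linarith
    linarith

theorem La_sub34 {g₁ g₂ : ℝ → ℝ} (h₁ : Continuous g₁) (h₂ : Continuous g₂) {δ : ℝ} (h : ∀ x, |g₁ x - g₂ x| ≤ δ) (s : ℝ) :
    |La g₁ s - La g₂ s| ≤ |s| * δ := by
  refine log_int_sub34 (by fun_prop) (by fun_prop) fun x => ?_
  rw [← mul_sub, abs_mul]
  exact mul_le_mul_of_nonneg_left (h x) (abs_nonneg s)

theorem La_lip34 {g : ℝ → ℝ} (hg : Continuous g) (hb : ∀ x, |g x| ≤ 1) (s s' : ℝ) : |La g s - La g s'| ≤ |s - s'| := by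
  refine log_int_sub34 (by fun_prop) (by fun_prop) fun x => ?_
  rw [← sub_mul, abs_mul]
  exact mul_le_of_le_one_right (abs_nonneg _) (hb x)

theorem La_zero34 (g : ℝ → ℝ) : La g 0 = 0 := by
  simp [La]

theorem La_cont34 {g : ℝ → ℝ} (hg : Continuous g) (hb : ∀ x, |g x| ≤ 1) : Continuous (La g) := by
  have : LipschitzWith 1 (La g) := LipschitzWith.of_dist_le_mul fun s s' => by
    rw [Real.dist_eq, Real.dist_eq, NNReal.coe_one, one_mul]
    exact La_lip34 hg hb s s'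
  exact this.continuous

theorem La_abs34 {g : ℝ → ℝ} (hg : Continuous g) (hb : ∀ x, |g x| ≤ 1) (s : ℝ) : |La g s| ≤ |s| := by
  have := La_lip34 hg hb s 0
  rwa [La_zero34, sub_zero, sub_zero] at this

theorem La_nonneg34 {g : ℝ → ℝ} (hg : Continuous g) (h0 : ∫ x in (0 : ℝ)..1, g x = 0) (s : ℝ) : 0 ≤ La g s := by
  refine log_nonneg ?_
  have h1 : ∫ x in (0 : ℝ)..1, (1 + s * g x) ≤ ∫ x in (0 : ℝ)..1, exp (s * g x) := by
    refine intervalIntegral.integral_mono_on zero_le_one (Continuous.intervalIntegrable (by fun_prop) _ _)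
      (Continuous.intervalIntegrable (by fun_prop) _ _) fun x _ => ?_
    have := add_one_le_exp (s * g x)
    linarith
  rw [intervalIntegral.integral_add (Continuous.intervalIntegrable (by fun_prop) _ _)
    (Continuous.intervalIntegrable (by fun_prop) _ _), intervalIntegral.integral_const_mul, h0] at h1
  simpa using h1

private theorem exp_bound34 {y : ℝ} (hy : |y| ≤ 1) : exp y ≤ 1 + y + y ^ 2 := by
  have h1 := Real.abs_exp_sub_one_sub_id_le hy
  have := (abs_le.1 h1).2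
  linarith

theorem La_sq34 {g : ℝ → ℝ} (hg : Continuous g) (hb : ∀ x, |g x| ≤ 1) (h0 : ∫ x in (0 : ℝ)..1, g x = 0) (s : ℝ) :
    La g s ≤ s ^ 2 := by
  rcases le_or_gt |s| 1 with hs | hs
  · have h1 : ∫ x in (0 : ℝ)..1, exp (s * g x) ≤ ∫ x in (0 : ℝ)..1, (1 + s * g x + s ^ 2) := by
      refine intervalIntegral.integral_mono_on zero_le_one (Continuous.intervalIntegrable (by fun_prop) _ _)
        (Continuous.intervalIntegrable (by fun_prop) _ _) fun x _ => ?_
      have h2 : |s * g x| ≤ 1 := by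
        rw [abs_mul]
        exact mul_le_one₀ hs (abs_nonneg _) (hb x)
      have h3 := exp_bound34 h2
      have h4 : (s * g x) ^ 2 ≤ s ^ 2 := by
        rw [mul_pow]
        refine mul_le_of_le_one_right (sq_nonneg s) ?_
        rw [sq_le_one_iff_abs_le_one]
        exact hb x
      linarith
    have h5 : ∫ x in (0 : ℝ)..1, (1 + s * g x + s ^ 2) = 1 + s ^ 2 := by
      rw [intervalIntegral.integral_add (Continuous.intervalIntegrable (by fun_prop) _ _)
        (Continuous.intervalIntegrable (by fun_prop) _ _),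
        intervalIntegral.integral_add (Continuous.intervalIntegrable (by fun_prop) _ _)
        (Continuous.intervalIntegrable (by fun_prop) _ _), intervalIntegral.integral_const_mul, h0]
      simp
    rw [h5] at h1
    have h6 := log_le_log (int_exp_pos34 (u := fun x => s * g x) (by fun_prop)) h1
    have h7 := log_le_sub_one_of_pos (show (0 : ℝ) < 1 + s ^ 2 by positivity)
    unfold La
    linarith
  · have h1 := (le_abs_self _).trans (La_abs34 hg hb s)
    have h2 : |s| ≤ |s| ^ 2 := by nlinarith [abs_nonneg s]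
    rw [sq_abs] at h2
    linarith

/-- strict positivity -/
theorem La_pos34 {g : ℝ → ℝ} (hg : Continuous g) (h0 : ∫ x in (0 : ℝ)..1, g x = 0) (hz : ∃ x ∈ Ioo (0 : ℝ) 1, g x ≠ 0)
    {s : ℝ} (hs : s ≠ 0) : 0 < La g s := by
  refine log_pos ?_
  obtain ⟨x₀, hx₀, hgx⟩ := hz
  have h1 : 0 < ∫ x in (0 : ℝ)..1, (exp (s * g x) - (1 + s * g x)) := by
    refine intervalIntegral.integral_pos zero_lt_one (Continuous.continuousOn (by fun_prop)) (fun x _ => ?_)
      ⟨x₀, ⟨hx₀.1.le, hx₀.2.le⟩, ?_⟩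
    · have := add_one_le_exp (s * g x)
      linarith
    · have := add_one_lt_exp (mul_ne_zero hs hgx)
      linarith
  rw [intervalIntegral.integral_sub (Continuous.intervalIntegrable (by fun_prop) _ _)
    (Continuous.intervalIntegrable (by fun_prop) _ _), intervalIntegral.integral_add
    (Continuous.intervalIntegrable (by fun_prop) _ _) (Continuous.intervalIntegrable (by fun_prop) _ _),
    intervalIntegral.integral_const_mul, h0] at h1
  simp only [intervalIntegral.integral_const, sub_zero, smul_eq_mul, mul_one, mul_zero, add_zero] at h1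
  linarith

/-! ### the waves -/

/-- the amplitude of the harmonic `n + 1` -/
private noncomputable def bb (n : ℕ) : ℝ := ((n + 1 : ℕ) : ℝ) ^ (-(3 / 2) : ℝ)

private theorem bb_nonneg (n : ℕ) : 0 ≤ bb n := by unfold bb; positivity

private theorem bb_step {n : ℕ} (hn : 0 < n) : bb n ≤ 2 * (n : ℝ) ^ (-(1 / 2) : ℝ) - 2 * ((n + 1 : ℕ) : ℝ) ^ (-(1 / 2) : ℝ) := by
  have hn' : (0 : ℝ) < n := by exact_mod_cast hn
  have hn1 : (0 : ℝ) < ((n + 1 : ℕ) : ℝ) := by positivity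
  obtain ⟨a, ha⟩ : ∃ a, a = sqrt (n : ℝ) := ⟨_, rfl⟩
  obtain ⟨b, hb⟩ : ∃ b, b = sqrt ((n + 1 : ℕ) : ℝ) := ⟨_, rfl⟩
  have ha0 : 0 < a := ha ▸ Real.sqrt_pos.2 hn'
  have hb0 : 0 < b := hb ▸ Real.sqrt_pos.2 hn1
  have ha2 : a ^ 2 = n := by rw [ha, Real.sq_sqrt hn'.le]
  have hb2 : b ^ 2 = n + 1 := by rw [hb, Real.sq_sqrt hn1.le]; push_cast; ring
  have h1 : (n : ℝ) ^ (-(1 / 2) : ℝ) = 1 / a := by
    rw [rpow_neg hn'.le, ← Real.sqrt_eq_rpow, ← ha, one_div]
  have h2 : ((n + 1 : ℕ) : ℝ) ^ (-(1 / 2) : ℝ) = 1 / b := by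
    rw [rpow_neg hn1.le, ← Real.sqrt_eq_rpow, ← hb, one_div]
  have h3 : bb n = 1 / b ^ 3 := by
    unfold bb
    rw [rpow_neg hn1.le, show (3 / 2 : ℝ) = 1 + 1 / 2 by norm_num, rpow_add hn1, rpow_one, ← Real.sqrt_eq_rpow, ← hb, one_div]
    congr 1
    have : ((n + 1 : ℕ) : ℝ) = b ^ 2 := by rw [hb2]; push_cast; ring
    rw [this]
    ring
  rw [h1, h2, h3]
  have hab : a < b := by
    rw [ha, hb]
    exact Real.sqrt_lt_sqrt hn'.le (by push_cast; linarith)
  have h4 : 2 * (1 / a) - 2 * (1 / b) - 1 / b ^ 3 = (2 * (b - a) * b ^ 2 - a) / (a * b ^ 3) := by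
    field_simp
  have h5 : 0 ≤ (2 * (b - a) * b ^ 2 - a) / (a * b ^ 3) := by
    refine div_nonneg ?_ (by positivity)
    have h6 : (b - a) * (b + a) = 1 := by nlinarith
    have h7 : 0 < b - a := by linarith
    have h8 : 1 ≤ 2 * (b - a) * b := by nlinarith
    nlinarith
  linarith

private theorem bb_sum {n : ℕ} (hn : 0 < n) (m : ℕ) :
    ∑ j ∈ Finset.range m, bb (j + n) ≤ 2 * (n : ℝ) ^ (-(1 / 2) : ℝ) - 2 * ((m + n : ℕ) : ℝ) ^ (-(1 / 2) : ℝ) := by
  induction m with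
  | zero => simp
  | succ m ih =>
    rw [Finset.sum_range_succ]
    have h1 := bb_step (n := m + n) (by omega)
    have h2 : (m + 1 + n : ℕ) = (m + n + 1 : ℕ) := by omega
    rw [h2]
    linarith

private theorem bb_sum_le {n : ℕ} (hn : 0 < n) (m : ℕ) : ∑ j ∈ Finset.range m, bb (j + n) ≤ 2 * (n : ℝ) ^ (-(1 / 2) : ℝ) := by
  have h1 := bb_sum hn m
  have h2 : 0 ≤ ((m + n : ℕ) : ℝ) ^ (-(1 / 2) : ℝ) := by positivity
  linarith

private theorem bb_summable : Summable bb := by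
  rw [← summable_nat_add_iff 1]
  exact summable_of_sum_range_le (fun n => bb_nonneg _) (bb_sum_le one_pos)

private theorem bb_tail {n : ℕ} (hn : 0 < n) : ∑' j, bb (j + n) ≤ 2 * (n : ℝ) ^ (-(1 / 2) : ℝ) :=
  Summable.tsum_le_of_sum_range_le ((summable_nat_add_iff n).2 bb_summable) (bb_sum_le hn)

private theorem bb_total : ∑' j, bb j ≤ 3 := by
  have h1 := bb_summable.sum_add_tsum_nat_add 1
  have h2 := bb_tail one_pos
  have h3 : bb 0 = 1 := by simp [bb]
  rw [Finset.sum_range_one, h3] at h1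
  simp only [Nat.cast_one, one_rpow] at h2
  linarith

private theorem bb_part (J : ℕ) : ∑ j ∈ Finset.range J, bb j ≤ 3 :=
  (bb_summable.sum_le_tsum _ fun j _ => bb_nonneg j).trans bb_total

private noncomputable def tm (x : ℝ) (j : ℕ) : ℝ := bb j * cos (2 * π * (((j + 1 : ℕ) : ℝ) * x) - 3 * π / 4)

private theorem tm_le (x : ℝ) (j : ℕ) : |tm x j| ≤ bb j := by
  unfold tm
  rw [abs_mul, abs_of_nonneg (bb_nonneg j)]
  exact mul_le_of_le_one_right (bb_nonneg j) (abs_cos_le_one _)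

private theorem tm_summable (x : ℝ) : Summable (tm x) :=
  Summable.of_norm_bounded bb_summable (tm_le x)

private theorem fJ_eq (J : ℕ) (x : ℝ) : fJ J x = 1 / π * ∑ j ∈ Finset.range J, tm x j := rfl

private theorem fI_eq (x : ℝ) : fI x = 1 / π * ∑' j, tm x j := rfl

private theorem inv_pi34 : 1 / π ≤ 1 / 3 := one_div_le_one_div_of_le (by norm_num) pi_gt_three.le

theorem fJ_cont34 (J : ℕ) : Continuous (fJ J) := by
  unfold fJ
  fun_prop

theorem fI_cont34 : Continuous fI := by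
  have h1 : Continuous fun x => ∑' j, tm x j :=
    continuous_tsum (fun j => by unfold tm; fun_prop) bb_summable fun j x => tm_le x j
  exact h1.const_mul (1 / π)

theorem fJ_abs34 (J : ℕ) (x : ℝ) : |fJ J x| ≤ 1 := by
  rw [fJ_eq, abs_mul, abs_of_nonneg (by positivity : (0 : ℝ) ≤ 1 / π)]
  have h1 : |∑ j ∈ Finset.range J, tm x j| ≤ 3 :=
    (Finset.abs_sum_le_sum_abs _ _).trans ((Finset.sum_le_sum fun j _ => tm_le x j).trans (bb_part J))
  calc 1 / π * |∑ j ∈ Finset.range J, tm x j| ≤ 1 / 3 * 3 := mul_le_mul inv_pi34 h1 (abs_nonneg _) (by norm_num)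
    _ = 1 := by norm_num

theorem fI_sub34 {J : ℕ} (hJ : 0 < J) (x : ℝ) : |fJ J x - fI x| ≤ (J : ℝ) ^ (-(1 / 2) : ℝ) := by
  have h1 := (tm_summable x).sum_add_tsum_nat_add J
  have h2 : fJ J x - fI x = -(1 / π * ∑' j, tm x (j + J)) := by
    rw [fJ_eq, fI_eq, ← h1]
    ring
  rw [h2, abs_neg, abs_mul, abs_of_nonneg (by positivity : (0 : ℝ) ≤ 1 / π)]
  have h3 : |∑' j, tm x (j + J)| ≤ 2 * (J : ℝ) ^ (-(1 / 2) : ℝ) := by
    have h4 : Summable fun j => bb (j + J) := (summable_nat_add_iff J).2 bb_summable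
    have h5 := tsum_of_norm_bounded (f := fun j => tm x (j + J)) h4.hasSum fun j => tm_le x (j + J)
    exact h5.trans (bb_tail hJ)
  have h6 : (0 : ℝ) ≤ (J : ℝ) ^ (-(1 / 2) : ℝ) := by positivity
  calc 1 / π * |∑' j, tm x (j + J)| ≤ 1 / 3 * (2 * (J : ℝ) ^ (-(1 / 2) : ℝ)) :=
        mul_le_mul inv_pi34 h3 (abs_nonneg _) (by norm_num)
    _ ≤ (J : ℝ) ^ (-(1 / 2) : ℝ) := by linarith

theorem fI_abs34 (x : ℝ) : |fI x| ≤ 1 := by
  rw [fI_eq, abs_mul, abs_of_nonneg (by positivity : (0 : ℝ) ≤ 1 / π)]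
  have h1 : |∑' j, tm x j| ≤ 3 := (tsum_of_norm_bounded (f := tm x) bb_summable.hasSum fun j => tm_le x j).trans bb_total
  calc 1 / π * |∑' j, tm x j| ≤ 1 / 3 * 3 := mul_le_mul inv_pi34 h1 (abs_nonneg _) (by norm_num)
    _ = 1 := by norm_num

private theorem int_cos34 (j : ℕ) (c : ℝ) : ∫ x in (0 : ℝ)..1, cos (2 * π * (((j + 1 : ℕ) : ℝ) * x) - c) = 0 := by
  have hj : (2 * π * ((j + 1 : ℕ) : ℝ)) ≠ 0 := by positivity
  have h1 : (fun x : ℝ => cos (2 * π * (((j + 1 : ℕ) : ℝ) * x) - c)) =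
      fun x => cos ((2 * π * ((j + 1 : ℕ) : ℝ)) * x - c) := by
    funext x
    congr 1
    ring
  rw [h1, intervalIntegral.integral_comp_mul_sub (fun x => cos x) hj, integral_cos]
  have h2 : sin (2 * π * ((j + 1 : ℕ) : ℝ) * 1 - c) = sin (2 * π * ((j + 1 : ℕ) : ℝ) * 0 - c) := by
    have h3 : 2 * π * ((j + 1 : ℕ) : ℝ) * 1 - c = (2 * π * ((j + 1 : ℕ) : ℝ) * 0 - c) + ((j + 1 : ℕ) : ℝ) * (2 * π) := by ring
    rw [h3]
    exact Real.sin_add_nat_mul_two_pi _ _
  rw [h2, sub_self, smul_zero]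

theorem fJ_int34 (J : ℕ) : ∫ x in (0 : ℝ)..1, fJ J x = 0 := by
  unfold fJ
  rw [intervalIntegral.integral_const_mul, intervalIntegral.integral_finsetSum]
  · have h1 : ∀ j ∈ Finset.range J, ∫ x in (0 : ℝ)..1, ((j + 1 : ℕ) : ℝ) ^ (-(3 / 2) : ℝ) *
        cos (2 * π * (((j + 1 : ℕ) : ℝ) * x) - 3 * π / 4) = 0 := fun j _ => by
      rw [intervalIntegral.integral_const_mul, int_cos34, mul_zero]
    rw [Finset.sum_eq_zero h1, mul_zero]
  · intro j _
    exact Continuous.intervalIntegrable (by fun_prop) _ _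

theorem fI_int34 : ∫ x in (0 : ℝ)..1, fI x = 0 := by
  have h1 : ∀ J : ℕ, 0 < J → |∫ x in (0 : ℝ)..1, fI x| ≤ (J : ℝ) ^ (-(1 / 2) : ℝ) := by
    intro J hJ
    have h2 : ∫ x in (0 : ℝ)..1, fI x = -∫ x in (0 : ℝ)..1, (fJ J x - fI x) := by
      rw [intervalIntegral.integral_sub ((fJ_cont34 J).intervalIntegrable _ _) (fI_cont34.intervalIntegrable _ _), fJ_int34]
      ring
    rw [h2, abs_neg]
    have h3 := intervalIntegral.norm_integral_le_of_norm_le_const (a := (0 : ℝ)) (b := 1) (f := fun x => fJ J x - fI x)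
      (C := (J : ℝ) ^ (-(1 / 2) : ℝ)) fun x _ => fI_sub34 hJ x
    simpa using h3
  have h2 : Tendsto (fun J : ℕ => (J : ℝ) ^ (-(1 / 2) : ℝ)) atTop (𝓝 0) :=
    (tendsto_rpow_neg_atTop (by norm_num : (0 : ℝ) < 1 / 2)).comp tendsto_natCast_atTop_atTop
  have h3 : |∫ x in (0 : ℝ)..1, fI x| ≤ 0 := by
    refine ge_of_tendsto h2 ?_
    filter_upwards [eventually_gt_atTop 0] with J hJ
    exact h1 J hJ
  exact abs_nonpos_iff.1 h3

theorem fI_ne34 : ∃ x ∈ Ioo (0 : ℝ) 1, fI x ≠ 0 := by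
  have h1 : fI 0 < 0 := by
    rw [fI_eq]
    have h2 : ∀ j, tm 0 j = -(sqrt 2 / 2) * bb j := by
      intro j
      unfold tm
      have h3 : cos (2 * π * (((j + 1 : ℕ) : ℝ) * 0) - 3 * π / 4) = -(sqrt 2 / 2) := by
        rw [show 2 * π * (((j + 1 : ℕ) : ℝ) * 0) - 3 * π / 4 = -(π - π / 4) by ring, cos_neg, cos_pi_sub, cos_pi_div_four]
      rw [h3]
      ring
    have h4 : ∑' j, tm 0 j = -(sqrt 2 / 2) * ∑' j, bb j := by
      rw [← tsum_mul_left]
      exact tsum_congr h2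
    rw [h4]
    have h5 : 1 ≤ ∑' j, bb j := by
      have := bb_summable.sum_le_tsum (Finset.range 1) fun j _ => bb_nonneg j
      simpa [bb] using this
    have h6 : 0 < sqrt 2 / 2 := by positivity
    have h7 : 0 < 1 / π := by positivity
    have h8 : 0 < 1 / π * (sqrt 2 / 2 * ∑' j, bb j) := by positivity
    linarith
  have h2 : ∀ᶠ x in 𝓝[>] (0 : ℝ), fI x < 0 :=
    (fI_cont34.tendsto 0).mono_left nhdsWithin_le_nhds |>.eventually (gt_mem_nhds h1)
  have h3 : ∀ᶠ x in 𝓝[>] (0 : ℝ), x ∈ Ioo (0 : ℝ) 1 := Ioo_mem_nhdsGT one_pos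
  obtain ⟨x, hx, hx'⟩ := (h2.and h3).exists
  exact ⟨x, hx', hx.ne⟩

end Pool.Agent.Helper93.EX
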