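import Pool.Agent.Helper34.EX.Riem2

/-!
# EX, block R, part 3: truncation; `cx_lim` from the Riemann sums
-/

open MeasureTheory Real Set Filter Topology

set_option autoImplicit false

namespace Pool.Agent.Helper93.EX

open Pool.Agent.Helper22.AE (rho nk tk box cz)

theorem sn_le_nk34 (k : ℤ × ℤ) : (sn k : ℝ) ≤ nk k := by
  have h1 : ((k.1.natAbs : ℕ) : ℝ) ≤ nk k := by
    rw [Nat.cast_natAbs, Int.cast_abs]
    exact (Complex.abs_re_le_norm (cz k))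
  have h2 : ((k.2.natAbs : ℕ) : ℝ) ≤ nk k := by
    rw [Nat.cast_natAbs, Int.cast_abs]
    exact (Complex.abs_im_le_norm (cz k))
  unfold sn
  rw [Nat.cast_max]
  exact max_le h1 h2

theorem sn_pos34 {k : ℤ × ℤ} (hk : Int.gcd k.1 k.2 = 1) : 0 < sn k := by
  unfold sn
  by_contra h
  have h1 : k.1 = 0 := by
    have : k.1.natAbs = 0 := by omega
    exact Int.natAbs_eq_zero.1 this
  have h2 : k.2 = 0 := by
    have : k.2.natAbs = 0 := by omega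
    exact Int.natAbs_eq_zero.1 this
  rw [h1, h2] at hk
  simp at hk

theorem ratio34 {N n : ℕ} (hn : 0 < n) (h : n < N) : 0 < (N - 1) / n ∧ (N : ℝ) ≤ 2 * n * (((N - 1) / n : ℕ) : ℝ) := by
  have h1 : 0 < (N - 1) / n := Nat.div_pos (by omega) hn
  refine ⟨h1, ?_⟩
  have h2 : N - 1 < n * ((N - 1) / n + 1) := by
    have := Nat.lt_mul_div_succ (N - 1) hn
    exact this
  have h3 : N ≤ n * ((N - 1) / n + 1) := by omega
  have h4 : n * ((N - 1) / n + 1) ≤ 2 * n * ((N - 1) / n) := by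
    nlinarith
  exact_mod_cast h3.trans h4

/-- the value `s` of the argument -/
theorem arg_eq34 (H : ℝ → ℝ) (σ ell : ℝ) (p : ℕ) (k : ℤ × ℤ) :
    σ * (ell * Lx p ^ (3 / 4 : ℝ)) * ak H k =
      σ * (ell * sqrt (rho H (tk k)) * (nk k / sqrt (Lx p)) ^ (-(3 / 2) : ℝ)) := by
  have h0 : 0 ≤ Lx p := by unfold Lx; positivity
  have h1 : (nk k / sqrt (Lx p)) ^ (-(3 / 2) : ℝ) = nk k ^ (-(3 / 2) : ℝ) * Lx p ^ (3 / 4 : ℝ) := by
    have hnk : 0 ≤ nk k := norm_nonneg _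
    rw [div_rpow hnk (Real.sqrt_nonneg _), Real.sqrt_eq_rpow, ← rpow_mul h0,
      show (1 / 2 : ℝ) * (-(3 / 2)) = -(3 / 4) by norm_num, rpow_neg h0, div_inv_eq_mul]
  rw [h1]
  unfold ak
  ring

theorem pt_small34 {σ : ℝ} (hσ : σ = 1 ∨ σ = -1) {Q u b δ η : ℝ} (hQ : 0 < Q) (hu : 0 < u) (hb : 0 ≤ b) (hbQ : b ≤ Q)
    {J : ℕ} (hJ : 0 < J) (hJu : 1 ≤ 2 * (u * η) * J) (hη : 0 < η) (h : Q * sqrt (2 * η) ≤ δ * Q ^ (2 / 3 : ℝ)) :
    |La (fJ J) (σ * (b * u ^ (-(3 / 2) : ℝ))) - La fI (σ * (b * u ^ (-(3 / 2) : ℝ)))| ≤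
      phd34 δ (Q * u ^ (-(3 / 2) : ℝ)) := by
  obtain ⟨s, hs⟩ : ∃ s, s = σ * (b * u ^ (-(3 / 2) : ℝ)) := ⟨_, rfl⟩
  rw [← hs, phd_val34 hQ hu]
  have hsa : |s| = b * u ^ (-(3 / 2) : ℝ) := by
    rw [hs, abs_mul, abs_of_nonneg (mul_nonneg hb (rpow_nonneg hu.le _))]
    rcases hσ with rfl | rfl <;> simp
  have hsQ : |s| ≤ Q * u ^ (-(3 / 2) : ℝ) := by
    rw [hsa]
    exact mul_le_mul_of_nonneg_right hbQ (rpow_nonneg hu.le _)
  refine le_min ?_ ?_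
  · have hJ' : (0 : ℝ) < J := by exact_mod_cast hJ
    have h1 := La_sub34 (fJ_cont34 J) fI_cont34 (fun x => fI_sub34 hJ x) s
    refine h1.trans ?_
    have h2 : (J : ℝ) ^ (-(1 / 2) : ℝ) ≤ sqrt (2 * η) * u ^ (1 / 2 : ℝ) := by
      rw [rpow_neg hJ'.le, ← Real.sqrt_eq_rpow, ← Real.sqrt_eq_rpow, ← Real.sqrt_mul (by positivity)]
      rw [← Real.sqrt_inv]
      refine Real.sqrt_le_sqrt ?_
      rw [inv_le_iff_one_le_mul₀ hJ']
      nlinarith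
    calc |s| * (J : ℝ) ^ (-(1 / 2) : ℝ) ≤ Q * u ^ (-(3 / 2) : ℝ) * (sqrt (2 * η) * u ^ (1 / 2 : ℝ)) :=
          mul_le_mul hsQ h2 (rpow_nonneg hJ'.le _) (by positivity)
      _ = Q * sqrt (2 * η) * (u ^ (-(3 / 2) : ℝ) * u ^ (1 / 2 : ℝ)) := by ring
      _ = Q * sqrt (2 * η) * u⁻¹ := by
        rw [← rpow_add hu, show (-(3 / 2) : ℝ) + 1 / 2 = -1 by norm_num, rpow_neg_one]
      _ ≤ δ * Q ^ (2 / 3 : ℝ) * u⁻¹ := mul_le_mul_of_nonneg_right h (inv_nonneg.2 hu.le)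
  · have h1 := La_sq34 (fJ_cont34 J) (fJ_abs34 J) (fJ_int34 J) s
    have h2 := La_sq34 fI_cont34 fI_abs34 fI_int34 s
    have h3 := La_nonneg34 (fJ_cont34 J) (fJ_int34 J) s
    have h4 := La_nonneg34 fI_cont34 fI_int34 s
    have h5 : s ^ 2 ≤ Q ^ 2 * (u ^ 3)⁻¹ := by
      rw [← sq_abs]
      calc |s| ^ 2 ≤ (Q * u ^ (-(3 / 2) : ℝ)) ^ 2 := pow_le_pow_left₀ (abs_nonneg _) hsQ 2
        _ = Q ^ 2 * (u ^ 3)⁻¹ := by
          rw [mul_pow, ← rpow_natCast (u ^ (-(3 / 2) : ℝ)), ← rpow_mul hu.le]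
          congr 1
          rw [show (-(3 / 2) : ℝ) * ((2 : ℕ) : ℝ) = -((3 : ℕ) : ℝ) by norm_num, rpow_neg hu.le, rpow_natCast]
    rw [abs_sub_le_iff]
    constructor <;> linarith

theorem pt_large34 {σ : ℝ} (hσ : σ = 1 ∨ σ = -1) {Q u b δ η : ℝ} (hQ : 0 < Q) (hu : 0 < u) (hb : 0 ≤ b) (hbQ : b ≤ Q)
    (hη : 0 < η) (hηu : 1 ≤ u * η) (h : Q ^ 2 * η ^ 2 ≤ δ * Q ^ (2 / 3 : ℝ)) :
    |La fI (σ * (b * u ^ (-(3 / 2) : ℝ)))| ≤ phd34 δ (Q * u ^ (-(3 / 2) : ℝ)) := by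
  obtain ⟨s, hs⟩ : ∃ s, s = σ * (b * u ^ (-(3 / 2) : ℝ)) := ⟨_, rfl⟩
  rw [← hs, phd_val34 hQ hu]
  have hsa : |s| = b * u ^ (-(3 / 2) : ℝ) := by
    rw [hs, abs_mul, abs_of_nonneg (mul_nonneg hb (rpow_nonneg hu.le _))]
    rcases hσ with rfl | rfl <;> simp
  have hsQ : |s| ≤ Q * u ^ (-(3 / 2) : ℝ) := by
    rw [hsa]
    exact mul_le_mul_of_nonneg_right hbQ (rpow_nonneg hu.le _)
  have h2 := La_sq34 fI_cont34 fI_abs34 fI_int34 s
  have h4 := La_nonneg34 fI_cont34 fI_int34 s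
  have h5 : s ^ 2 ≤ Q ^ 2 * (u ^ 3)⁻¹ := by
    rw [← sq_abs]
    calc |s| ^ 2 ≤ (Q * u ^ (-(3 / 2) : ℝ)) ^ 2 := pow_le_pow_left₀ (abs_nonneg _) hsQ 2
      _ = Q ^ 2 * (u ^ 3)⁻¹ := by
        rw [mul_pow, ← rpow_natCast (u ^ (-(3 / 2) : ℝ)), ← rpow_mul hu.le]
        congr 1
        rw [show (-(3 / 2) : ℝ) * ((2 : ℕ) : ℝ) = -((3 : ℕ) : ℝ) by norm_num, rpow_neg hu.le, rpow_natCast]
  rw [abs_of_nonneg h4]
  refine le_min ?_ (h2.trans h5)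
  have h6 : Q ^ 2 * (u ^ 3)⁻¹ ≤ Q ^ 2 * η ^ 2 * u⁻¹ := by
    have h7 : (u ^ 3)⁻¹ ≤ η ^ 2 * u⁻¹ := by
      rw [inv_le_iff_one_le_mul₀ (by positivity)]
      have h8 : η ^ 2 * u⁻¹ * u ^ 3 = (u * η) ^ 2 := by
        field_simp
      rw [h8]
      nlinarith
    calc Q ^ 2 * (u ^ 3)⁻¹ ≤ Q ^ 2 * (η ^ 2 * u⁻¹) := mul_le_mul_of_nonneg_left h7 (by positivity)
      _ = Q ^ 2 * η ^ 2 * u⁻¹ := by ring
  exact (h2.trans h5).trans (h6.trans (mul_le_mul_of_nonneg_right h (inv_nonneg.2 hu.le)))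

/-- the primitive sum of a function of `nk k / Y` and of the direction -/
noncomputable def PS34 (φ r : ℝ → ℝ) (ell Y : ℝ) (k : ℤ × ℤ) : ℝ :=
  if Int.gcd k.1 k.2 = 1 then φ (ell * sqrt (r (tk k)) * (nk k / Y) ^ (-(3 / 2) : ℝ)) else 0

theorem trunc34 {H : ℝ → ℝ} {σ : ℝ} (hσ : σ = 1 ∨ σ = -1) {ell Q δ : ℝ} (hl : 0 < ell) (hQ : 0 < Q)
    (hQH : ∀ t, ell * sqrt (rho H t) ≤ Q) {N p : ℕ} (hN : 0 < N) (hp : 0 < p)
    (h1 : Q * sqrt (2 * (sqrt (Lx p) / N)) ≤ δ * Q ^ (2 / 3 : ℝ))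
    (h2 : Q ^ 2 * (sqrt (Lx p) / N) ^ 2 ≤ δ * Q ^ (2 / 3 : ℝ))
    (hs1 : Summable (PS34 (fun s => La fI (σ * s)) (rho H) ell (sqrt (Lx p))))
    (hs2 : Summable (PS34 (phd34 δ) (fun _ => 1) Q (sqrt (Lx p)))) :
    |CX σ H N (ell * Lx p ^ (3 / 4 : ℝ)) - ∑' k, PS34 (fun s => La fI (σ * s)) (rho H) ell (sqrt (Lx p)) k| ≤
      ∑' k, PS34 (phd34 δ) (fun _ => 1) Q (sqrt (Lx p)) k := by
  classical
  have hL : 0 < Lx p := by
    unfold Lx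
    have : (0 : ℝ) < p := by exact_mod_cast hp
    have := Real.log_pos one_lt_two
    positivity
  obtain ⟨Y, hY⟩ : ∃ Y, Y = sqrt (Lx p) := ⟨_, rfl⟩
  have hY0 : 0 < Y := hY ▸ Real.sqrt_pos.2 hL
  have hN' : (0 : ℝ) < N := by exact_mod_cast hN
  rw [← hY] at h1 h2 hs1 hs2 ⊢
  have hCX : CX σ H N (ell * Lx p ^ (3 / 4 : ℝ)) =
      ∑' k : ℤ × ℤ, if k ∈ prim N then La (fJ ((N - 1) / sn k)) (σ * (ell * Lx p ^ (3 / 4 : ℝ)) * ak H k) else 0 := by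
    rw [tsum_eq_sum (s := prim N) fun k hk => if_neg hk]
    exact Finset.sum_congr rfl fun k hk => by rw [if_pos hk]
  have hsf : Summable fun k : ℤ × ℤ => if k ∈ prim N then
      La (fJ ((N - 1) / sn k)) (σ * (ell * Lx p ^ (3 / 4 : ℝ)) * ak H k) else 0 :=
    summable_of_ne_finset_zero (s := prim N) fun k hk => if_neg hk
  rw [hCX, ← hsf.tsum_sub hs1]
  have key : ∀ k : ℤ × ℤ, ‖(if k ∈ prim N then
      La (fJ ((N - 1) / sn k)) (σ * (ell * Lx p ^ (3 / 4 : ℝ)) * ak H k) else 0) -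
      PS34 (fun s => La fI (σ * s)) (rho H) ell Y k‖ ≤ PS34 (phd34 δ) (fun _ => 1) Q Y k := by
    intro k
    rw [norm_eq_abs]
    unfold PS34
    by_cases hg : Int.gcd k.1 k.2 = 1
    · have hsn := sn_pos34 hg
      have hsn' : (0 : ℝ) < sn k := by exact_mod_cast hsn
      have hnk : 0 < nk k := lt_of_lt_of_le hsn' (sn_le_nk34 k)
      have hu : 0 < nk k / Y := div_pos hnk hY0
      have hη : 0 < Y / N := div_pos hY0 hN'
      have huη : nk k / Y * (Y / N) = nk k / N := by field_simp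
      rw [if_pos hg, if_pos hg, Real.sqrt_one, mul_one]
      by_cases hk : k ∈ prim N
      · rw [if_pos hk, arg_eq34, ← hY]
        have hlt : sn k < N := by
          unfold prim at hk
          exact (Finset.mem_filter.1 hk).2.2
        obtain ⟨hJ, hJN⟩ := ratio34 hsn hlt
        refine pt_small34 hσ hQ hu (by positivity) (hQH _) hJ ?_ hη h1
        rw [huη]
        have h3 : (0 : ℝ) < (((N - 1) / sn k : ℕ) : ℝ) := by exact_mod_cast hJ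
        have h4 : 2 * (sn k : ℝ) * (((N - 1) / sn k : ℕ) : ℝ) ≤ 2 * nk k * (((N - 1) / sn k : ℕ) : ℝ) := by
          have := sn_le_nk34 k
          nlinarith
        rw [show 2 * (nk k / N) * (((N - 1) / sn k : ℕ) : ℝ) = 2 * nk k * (((N - 1) / sn k : ℕ) : ℝ) / N by ring, le_div_iff₀ hN']
        linarith
      · rw [if_neg hk, zero_sub, abs_neg]
        have hge : N ≤ sn k := by
          by_contra hlt
          push Not at hlt
          refine hk ?_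
          unfold prim
          refine Finset.mem_filter.2 ⟨?_, hg, hlt⟩
          unfold box
          unfold sn at hlt
          simp only [Finset.mem_product, Finset.mem_Icc]
          omega
        refine pt_large34 hσ hQ hu (by positivity) (hQH _) hη ?_ h2
        rw [huη, le_div_iff₀ hN', one_mul]
        have : (N : ℝ) ≤ sn k := by exact_mod_cast hge
        exact this.trans (sn_le_nk34 k)
    · have hk : k ∉ prim N := fun hk => by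
        unfold prim at hk
        exact hg (Finset.mem_filter.1 hk).2.1
      rw [if_neg hk, if_neg hg, if_neg hg]
      simp
  exact tsum_of_norm_bounded hs2.hasSum key

theorem Y_div_NN34 (a p : ℕ) : sqrt (Lx p) / NN a p ≤ 2 / 2 ^ a := by
  have h1 : sqrt (Lx p) ≤ sqrt (p : ℝ) := by
    refine Real.sqrt_le_sqrt ?_
    unfold Lx
    have : Real.log 2 ≤ 1 := by
      have := Real.log_two_lt_d9
      linarith
    have hp' : (0 : ℝ) ≤ p := Nat.cast_nonneg _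
    nlinarith
  have h2 : p < 2 ^ (Nat.log 2 p + 1) := Nat.lt_pow_succ_log_self (by norm_num) p
  have h3 : p ≤ (2 * 2 ^ (Nat.log 2 p / 2)) ^ 2 := by
    have h4 : Nat.log 2 p + 1 ≤ 2 * (Nat.log 2 p / 2) + 2 := by omega
    have h5 : 2 ^ (Nat.log 2 p + 1) ≤ 2 ^ (2 * (Nat.log 2 p / 2) + 2) := Nat.pow_le_pow_right (by norm_num) h4
    have h6 : (2 * 2 ^ (Nat.log 2 p / 2)) ^ 2 = 2 ^ (2 * (Nat.log 2 p / 2) + 2) := by
      rw [← pow_succ', ← pow_mul]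
      congr 1
      ring
    rw [h6]
    omega
  have h4 : sqrt (p : ℝ) ≤ 2 * 2 ^ (Nat.log 2 p / 2) := by
    rw [Real.sqrt_le_left (by positivity)]
    exact_mod_cast h3
  have h5 : ((NN a p : ℕ) : ℝ) = 2 ^ (Nat.log 2 p / 2) * 2 ^ a := by
    unfold NN
    push_cast
    rw [pow_add]
  rw [h5, div_le_div_iff₀ (by positivity) (by positivity)]
  calc sqrt (Lx p) * 2 ^ a ≤ (2 * 2 ^ (Nat.log 2 p / 2)) * 2 ^ a :=
        mul_le_mul_of_nonneg_right (h1.trans h4) (by positivity)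
    _ = 2 * (2 ^ (Nat.log 2 p / 2) * 2 ^ a) := by ring

theorem Lx_tendsto34 : Tendsto (fun p : ℕ => sqrt (Lx p)) atTop atTop := by
  refine Real.tendsto_sqrt_atTop.comp ?_
  unfold Lx
  exact tendsto_natCast_atTop_atTop.atTop_mul_const (Real.log_pos one_lt_two)

theorem cx_lim_of34
    (riem : ∀ (φ r : ℝ → ℝ) (C ell : ℝ), Continuous φ → (∀ s, |φ s| ≤ C * |s|) → (∀ s, |φ s| ≤ C * s ^ 2) →
      Continuous r → Function.Periodic r (2 * π) → (∀ t, 0 < r t) → 0 < ell →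
      (∀ Y : ℝ, 0 < Y → Summable (PS34 φ r ell Y)) ∧
      Tendsto (fun Y : ℝ => (∑' k, PS34 φ r ell Y k) / Y ^ 2) atTop
        (𝓝 (6 / π ^ 2 * (∫ t in (0 : ℝ)..(2 * π), r t ^ (2 / 3 : ℝ)) *
          (∫ u in Ioi (0 : ℝ), φ (u ^ (-(3 / 2) : ℝ)) * u) * ell ^ (4 / 3 : ℝ))))
    {H : ℝ → ℝ} (h2 : ContDiff ℝ 2 H) (hp : Function.Periodic H (2 * π)) (hr : ∀ t, 0 < rho H t) {σ : ℝ}
    (hσ : σ = 1 ∨ σ = -1) {ell : ℝ} (hl : 0 < ell) {ε : ℝ} (hε : 0 < ε) :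
    ∃ a₀ : ℕ, ∀ a : ℕ, a₀ ≤ a → ∃ p₀ : ℕ, ∀ p : ℕ, p₀ ≤ p →
      |CX σ H (NN a p) (ell * Lx p ^ (3 / 4 : ℝ)) / Lx p - 6 / π ^ 2 * aff H * Jc σ * ell ^ (4 / 3 : ℝ)| ≤ ε := by
  -- the curvature function
  have hrc : Continuous (rho H) := by
    have h3 : Continuous (deriv (deriv H)) := by
      have h4 : ContDiff ℝ 1 (deriv H) := by
        have : ContDiff ℝ (1 + 1) H := by
          rw [one_add_one_eq_two]
          exact h2
        exact (contDiff_succ_iff_deriv.1 this).2.2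
      exact h4.continuous_deriv (by norm_num)
    have h5 : Continuous fun t => H t + deriv (deriv H) t := h2.continuous.add h3
    exact h5
  have hrp : Function.Periodic (rho H) (2 * π) := by
    intro t
    unfold rho
    have h3 : (fun x => H (x + 2 * π)) = H := funext hp
    have h4 : ∀ t, deriv H (t + 2 * π) = deriv H t := by
      intro t
      rw [← deriv_comp_add_const, h3]
    have h5 : (fun x => deriv H (x + 2 * π)) = deriv H := funext h4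
    have h6 : deriv (deriv H) (t + 2 * π) = deriv (deriv H) t := by
      rw [← deriv_comp_add_const, h5]
    rw [hp, h6]
  obtain ⟨M, hM⟩ : ∃ M, ∀ t, rho H t ≤ M := by
    obtain ⟨M, hM⟩ := (isCompact_Icc (a := (0 : ℝ)) (b := 0 + 2 * π)).bddAbove_image hrc.continuousOn
    refine ⟨M, fun t => ?_⟩
    obtain ⟨y, hy, hty⟩ := Function.Periodic.exists_mem_Ico₀ hrp (by positivity) t
    rw [hty]
    exact hM ⟨y, ⟨hy.1, by rw [zero_add]; exact hy.2.le⟩, rfl⟩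
  obtain ⟨Q, hQ⟩ : ∃ Q, Q = ell * sqrt M := ⟨_, rfl⟩
  have hM0 : 0 < M := (hr 0).trans_le (hM 0)
  have hQ0 : 0 < Q := hQ ▸ mul_pos hl (Real.sqrt_pos.2 hM0)
  have hQH : ∀ t, ell * sqrt (rho H t) ≤ Q := fun t => by
    rw [hQ]
    exact mul_le_mul_of_nonneg_left (Real.sqrt_le_sqrt (hM t)) hl.le
  -- the main sum
  obtain ⟨hs1, ht1⟩ := riem (fun s => La fI (σ * s)) (rho H) 1 ell (Lphi_cont34 σ) (Lphi_one34 hσ) (Lphi_two34 hσ) hrc hrp hr hl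
  -- the error
  obtain ⟨K, hK⟩ : ∃ K, K = 6 / π ^ 2 * (2 * π) * 2 * Q ^ (4 / 3 : ℝ) := ⟨_, rfl⟩
  have hK0 : 0 < K := by rw [hK]; positivity
  obtain ⟨δ, hδ⟩ : ∃ δ, δ = (ε / (4 * K)) ^ 2 := ⟨_, rfl⟩
  have hδ0 : 0 < δ := by rw [hδ]; positivity
  have hKδ : K * sqrt δ = ε / 4 := by
    rw [hδ, Real.sqrt_sq (by positivity)]
    field_simp
  obtain ⟨hs2, ht2⟩ := riem (phd34 δ) (fun _ => 1) (1 + δ) Q (phd_cont34 δ) (phd_one34 hδ0) (phd_two34 hδ0) continuous_const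
    (fun _ => rfl) (fun _ => one_pos) hQ0
  have hlim2 : 6 / π ^ 2 * (∫ t in (0 : ℝ)..(2 * π), (fun _ : ℝ => (1 : ℝ)) t ^ (2 / 3 : ℝ)) *
      (∫ u in Ioi (0 : ℝ), phd34 δ (u ^ (-(3 / 2) : ℝ)) * u) * Q ^ (4 / 3 : ℝ) ≤ ε / 4 := by
    have h3 := phd_rad34 hδ0
    have h4 : ∫ t in (0 : ℝ)..(2 * π), (fun _ : ℝ => (1 : ℝ)) t ^ (2 / 3 : ℝ) = 2 * π := by
      simp
    rw [h4, ← hKδ, hK]
    calc 6 / π ^ 2 * (2 * π) * (∫ u in Ioi (0 : ℝ), phd34 δ (u ^ (-(3 / 2) : ℝ)) * u) * Q ^ (4 / 3 : ℝ)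
        ≤ 6 / π ^ 2 * (2 * π) * (2 * sqrt δ) * Q ^ (4 / 3 : ℝ) := by gcongr
      _ = 6 / π ^ 2 * (2 * π) * 2 * Q ^ (4 / 3 : ℝ) * sqrt δ := by ring
  -- the choice of `a₀`
  have ha : ∃ a₀ : ℕ, ∀ a : ℕ, a₀ ≤ a → ∀ η : ℝ, 0 ≤ η → η ≤ 2 / 2 ^ a →
      Q * sqrt (2 * η) ≤ δ * Q ^ (2 / 3 : ℝ) ∧ Q ^ 2 * η ^ 2 ≤ δ * Q ^ (2 / 3 : ℝ) := by
    have hc0 : 0 < δ * Q ^ (2 / 3 : ℝ) := by positivity
    have hf : Tendsto (fun a : ℕ => (2 : ℝ) / 2 ^ a) atTop (𝓝 0) := by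
      have h3 := (tendsto_pow_atTop_nhds_zero_of_lt_one (by norm_num : (0 : ℝ) ≤ 1 / 2) (by norm_num)).const_mul 2
      rw [mul_zero] at h3
      refine h3.congr fun a => ?_
      rw [one_div, inv_pow]
      rfl
    have hg1 : Tendsto (fun a : ℕ => Q * sqrt (2 * ((2 : ℝ) / 2 ^ a))) atTop (𝓝 0) := by
      have h3 : Continuous fun x : ℝ => Q * sqrt (2 * x) := by fun_prop
      have h4 := (h3.tendsto 0).comp hf
      have h5 : Q * sqrt (2 * 0) = 0 := by simp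
      rw [h5] at h4
      exact h4
    have hg2 : Tendsto (fun a : ℕ => Q ^ 2 * ((2 : ℝ) / 2 ^ a) ^ 2) atTop (𝓝 0) := by
      have h3 : Continuous fun x : ℝ => Q ^ 2 * x ^ 2 := by fun_prop
      have h4 := (h3.tendsto 0).comp hf
      have h5 : Q ^ 2 * (0 : ℝ) ^ 2 = 0 := by simp
      rw [h5] at h4
      exact h4
    obtain ⟨a₀, ha₀⟩ := eventually_atTop.1 ((hg1.eventually (ge_mem_nhds hc0)).and (hg2.eventually (ge_mem_nhds hc0)))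
    refine ⟨a₀, fun a haa η hη0 hη => ⟨le_trans ?_ (ha₀ a haa).1, le_trans ?_ (ha₀ a haa).2⟩⟩
    · gcongr
    · gcongr
  obtain ⟨a₀, ha₀⟩ := ha
  refine ⟨a₀, fun a haa => ?_⟩
  have hev1 : ∀ᶠ Y : ℝ in atTop, |(∑' k, PS34 (fun s => La fI (σ * s)) (rho H) ell Y k) / Y ^ 2 -
      6 / π ^ 2 * aff H * Jc σ * ell ^ (4 / 3 : ℝ)| < ε / 4 := by
    have := Metric.tendsto_nhds.1 ht1 (ε / 4) (by positivity)
    simp only [Real.dist_eq] at this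
    exact this
  have hev2 : ∀ᶠ Y : ℝ in atTop, (∑' k, PS34 (phd34 δ) (fun _ => 1) Q Y k) / Y ^ 2 < ε / 2 :=
    ht2.eventually (gt_mem_nhds (lt_of_le_of_lt hlim2 (by linarith)))
  obtain ⟨p₀, hp₀⟩ := eventually_atTop.1 ((Lx_tendsto34.eventually (hev1.and hev2)).and (eventually_gt_atTop 0))
  refine ⟨p₀, fun p hpp => ?_⟩
  obtain ⟨⟨hA, hB⟩, hp0⟩ := hp₀ p hpp
  have hp0' : (0 : ℝ) < p := by exact_mod_cast hp0
  have hL : 0 < Lx p := by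
    unfold Lx
    have := Real.log_pos one_lt_two
    positivity
  have hNN : 0 < NN a p := by unfold NN; positivity
  have hYs : 0 < sqrt (Lx p) := Real.sqrt_pos.2 hL
  obtain ⟨hc1, hc2⟩ := ha₀ a haa (sqrt (Lx p) / NN a p) (by positivity) (Y_div_NN34 a p)
  have hT := trunc34 hσ hl hQ0 hQH hNN hp0 hc1 hc2 (hs1 _ hYs) (hs2 _ hYs)
  rw [Real.sq_sqrt hL.le] at hA hB
  have hT' : |CX σ H (NN a p) (ell * Lx p ^ (3 / 4 : ℝ)) / Lx p -
      (∑' k, PS34 (fun s => La fI (σ * s)) (rho H) ell (sqrt (Lx p)) k) / Lx p| ≤ ε / 2 := by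
    rw [← sub_div, abs_div, abs_of_pos hL]
    exact (div_le_div_of_nonneg_right hT hL.le).trans hB.le
  have := abs_sub_le (CX σ H (NN a p) (ell * Lx p ^ (3 / 4 : ℝ)) / Lx p)
    ((∑' k, PS34 (fun s => La fI (σ * s)) (rho H) ell (sqrt (Lx p)) k) / Lx p)
    (6 / π ^ 2 * aff H * Jc σ * ell ^ (4 / 3 : ℝ))
  linarith

end Pool.Agent.Helper93.EX
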